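import Pool.Agent.Work.MP_3489b6_co.Defs

namespace Pool.Agent.Work.MP_3489b6_co.Hedge

variable {V : Type} [Fintype V] (G : SimpleGraph V) [DecidableRel G.Adj]

/-- The Rayleigh quotient of the ordinary Laplacian `(Δ g)(x) = ∑_{y ∼ x} (g x - g y)`. -/
noncomputable def rayleigh (g : V → ℝ) : ℝ :=
  (∑ x, g x * ∑ y ∈ G.neighborFinset x, (g x - g y)) / ∑ x, g x ^ 2

/-- The least Rayleigh quotient of a nonzero real function whose support induces a forest, that
is, the least Dirichlet eigenvalue of an induced forest. -/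
noncomputable def tau : ℝ :=
  sInf {t : ℝ | ∃ g : V → ℝ, g ≠ 0 ∧ (G.induce (Function.support g)).IsAcyclic ∧ t = rayleigh G g}

end Pool.Agent.Work.MP_3489b6_co.Hedge
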