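import Mathlib
import Pool.Agent.Work.MP_3489b6_co.Hedge.Defs
import Pool.Agent.Work.MP_3489b6_co.Proof

-- merged part: Pool.Agent.Work.MP_3489b6_co.Hedge.Weights
section
/-! Edge weights inversely proportional to the girth of the edge; short balls induce forests. -/

set_option autoImplicit false
set_option linter.unusedSectionVars false

open SimpleGraph Real

namespace Pool.Agent.Work.MP_3489b6_co.Hedge

variable {V : Type} [DecidableEq V] (G : SimpleGraph V)

/-- Lengths of walks from x to y that avoid the edge xy. -/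
def Av (x y : V) : Set ℕ := {n | ∃ W : G.Walk x y, s(x, y) ∉ W.edges ∧ W.length = n}

lemma Av_comm (x y : V) : Av G x y = Av G y x := by
  have h : ∀ x y : V, Av G x y ⊆ Av G y x := by
    rintro x y n ⟨W, hW, rfl⟩
    exact ⟨W.reverse, by simpa [Sym2.eq_swap] using hW, by simp⟩
  exact (h x y).antisymm (h y x)

open Classical in
/-- The weight of an edge. -/
noncomputable def wt (x y : V) : ℝ :=
  if (Av G x y).Nonempty then 3 * π / ((sInf (Av G x y) : ℕ) + 1) else 0

lemma wt_comm (x y : V) : wt G x y = wt G y x := by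
  unfold wt
  rw [Av_comm]

/-- The weight on unordered pairs. -/
noncomputable def wtE : Sym2 V → ℝ := Sym2.lift ⟨wt G, wt_comm G⟩

@[simp] lemma wtE_mk (x y : V) : wtE G s(x, y) = wt G x y := rfl

/-- The weighted length of a walk. -/
noncomputable def len {x y : V} (W : G.Walk x y) : ℝ := (W.edges.map (wtE G)).sum

variable {G}

lemma wt_nonneg (x y : V) : 0 ≤ wt G x y := by
  unfold wt
  split_ifs
  · positivity
  · exact le_rfl

lemma wtE_nonneg (e : Sym2 V) : 0 ≤ wtE G e := by
  induction e using Sym2.ind with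
  | h x y => exact wt_nonneg x y

lemma le_wt {x y : V} (W : G.Walk x y) (h : s(x, y) ∉ W.edges) :
    3 * π / (W.length + 1) ≤ wt G x y := by
  have hm : W.length ∈ Av G x y := ⟨W, h, rfl⟩
  unfold wt
  rw [if_pos ⟨_, hm⟩]
  have : ((sInf (Av G x y) : ℕ) : ℝ) ≤ W.length := by exact_mod_cast Nat.sInf_le hm
  gcongr

lemma wt_cases (x y : V) : wt G x y = 0 ∨
    ∃ W : G.Walk x y, W.IsPath ∧ s(x, y) ∉ W.edges ∧ wt G x y ≤ 3 * π / (W.length + 1) := by
  by_cases h : (Av G x y).Nonempty
  · obtain ⟨W, hW, hl⟩ := Nat.sInf_mem h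
    refine Or.inr ⟨W.bypass, W.bypass_isPath, fun he => hW (W.edges_bypass_subset_edges he), ?_⟩
    unfold wt
    rw [if_pos h, ← hl]
    have : (W.bypass.length : ℝ) ≤ W.length := by exact_mod_cast W.length_bypass_le_length
    gcongr
  · left
    unfold wt
    rw [if_neg h]

lemma wt_le_pi {x y : V} (hxy : G.Adj x y) : wt G x y ≤ π := by
  rcases wt_cases (G := G) x y with h | ⟨W, -, hW, h⟩
  · rw [h]; exact pi_pos.le
  · have h2 : 2 ≤ W.length := by
      cases W with
      | nil => exact absurd rfl hxy.ne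
      | cons h' W' =>
        cases W' with
        | nil => simp at hW
        | cons h'' W'' => simp
    have h3 : (3 : ℝ) ≤ W.length + 1 := by
      have : (2 : ℝ) ≤ W.length := by exact_mod_cast h2
      linarith
    refine h.trans ?_
    rw [div_le_iff₀ (by linarith)]
    nlinarith [pi_pos]

@[simp] lemma len_nil (x : V) : len G (Walk.nil : G.Walk x x) = 0 := by simp [len]

@[simp] lemma len_cons {x y z : V} (h : G.Adj x y) (W : G.Walk y z) :
    len G (Walk.cons h W) = wt G x y + len G W := by simp [len]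

@[simp] lemma len_append {x y z : V} (W : G.Walk x y) (W' : G.Walk y z) :
    len G (W.append W') = len G W + len G W' := by simp [len]

@[simp] lemma len_reverse {x y : V} (W : G.Walk x y) : len G W.reverse = len G W := by
  simp [len, List.sum_reverse]

lemma len_nonneg {x y : V} (W : G.Walk x y) : 0 ≤ len G W :=
  List.sum_nonneg fun a ha => by
    obtain ⟨e, -, rfl⟩ := List.mem_map.1 ha
    exact wtE_nonneg e

lemma len_bypass_le {x y : V} (W : G.Walk x y) : len G W.bypass ≤ len G W :=
  (W.edges_bypass_sublist_edges.map _).sum_le_sum fun a ha => by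
    obtain ⟨e, -, rfl⟩ := List.mem_map.1 ha
    exact wtE_nonneg e

lemma exists_split {x y : V} (W : G.Walk x y) {e : Sym2 V} (he : e ∈ W.edges) :
    ∃ (c d : V) (h : G.Adj c d) (P : G.Walk x c) (Q : G.Walk d y),
      e = s(c, d) ∧ W = P.append (Walk.cons h Q) := by
  induction W with
  | nil => simp at he
  | cons h W ih =>
    rw [Walk.edges_cons, List.mem_cons] at he
    rcases he with rfl | he
    · exact ⟨_, _, h, Walk.nil, W, rfl, rfl⟩
    · obtain ⟨c, d, h', P, Q, rfl, rfl⟩ := ih he
      exact ⟨c, d, h', Walk.cons h P, Q, rfl, rfl⟩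

lemma exists_split_path {x y : V} (W : G.Walk x y) (hW : W.IsPath) {e : Sym2 V}
    (he : e ∈ W.edges) :
    ∃ (c d : V) (h : G.Adj c d) (P : G.Walk x c) (Q : G.Walk d y),
      e = s(c, d) ∧ W = P.append (Walk.cons h Q) ∧ e ∉ P.edges ∧ e ∉ Q.edges := by
  obtain ⟨c, d, h, P, Q, rfl, rfl⟩ := exists_split W he
  have hnd := hW.isTrail.edges_nodup
  rw [Walk.edges_append, Walk.edges_cons, List.nodup_append] at hnd
  exact ⟨c, d, h, P, Q, rfl, rfl, fun hP => hnd.2.2 _ hP _ List.mem_cons_self rfl,
    (List.nodup_cons.1 hnd.2.1).1⟩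

/-- Every cycle has weighted length at least three pi. -/
lemma cycle_bound {x y : V} (hxy : G.Adj x y) (W : G.Walk x y) (hW : s(x, y) ∉ W.edges) :
    3 * π ≤ len G W + wt G x y := by
  have hP : s(x, y) ∉ W.bypass.edges := fun he => hW (W.edges_bypass_subset_edges he)
  have h1 := len_bypass_le W
  have hpath := W.bypass_isPath
  generalize W.bypass = P at hP h1 hpath
  have h2 := le_wt P hP
  have h3 : ∀ a ∈ P.edges.map (wtE G), 3 * π / (P.length + 1) ≤ a := by
    intro a ha
    obtain ⟨e, he, rfl⟩ := List.mem_map.1 ha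
    obtain ⟨c, d, h, P₁, P₂, rfl, hPe, he1, he2⟩ := exists_split_path P hpath he
    have hne : s(c, d) ≠ s(x, y) := fun h => hP (h ▸ he)
    have h4 := le_wt (P₂.append (Walk.cons hxy.symm P₁)) (by
      rw [Sym2.eq_swap]
      simp only [Walk.edges_append, Walk.edges_cons, List.mem_append, List.mem_cons, not_or]
      exact ⟨he2, by rw [Sym2.eq_swap (a := y)]; exact hne, he1⟩)
    have h5 : (P₂.append (Walk.cons hxy.symm P₁)).length = P.length := by
      rw [hPe]; simp; omega
    rw [h5, wt_comm] at h4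
    exact h4
  have h4 := List.card_nsmul_le_sum _ _ h3
  rw [List.length_map, Walk.length_edges, nsmul_eq_mul] at h4
  have h5 : (P.length : ℝ) * (3 * π / (P.length + 1)) + 3 * π / (P.length + 1) = 3 * π := by
    field_simp
  unfold len at h1 ⊢
  linarith

/-- The open ball of radius pi. -/
def Ball (G : SimpleGraph V) (v : V) : Set V := {w | ∃ W : G.Walk v w, len G W < π}

lemma ball_bridge {v x y : V} (hxy : G.Adj x y) (P : G.Walk v x) (hP : len G P < π)
    (hPe : s(x, y) ∉ P.edges) {z : V} (W : G.Walk x z) (hWe : s(x, y) ∉ W.edges)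
    (hWB : ∀ w ∈ W.support, w ∈ Ball G v) : z ≠ y := by
  have hy : ¬ ∃ Q : G.Walk v y, len G Q < π ∧ s(x, y) ∉ Q.edges := by
    rintro ⟨Q, hQ, hQe⟩
    have := cycle_bound hxy (P.reverse.append Q) (by simp [hPe, hQe])
    have h2 := wt_le_pi hxy
    simp only [len_append, len_reverse] at this
    linarith
  have key : ∀ (a b : V) (W : G.Walk a b), s(x, y) ∉ W.edges → (∀ w ∈ W.support, w ∈ Ball G v) →
      (∃ Q : G.Walk v a, len G Q < π ∧ s(x, y) ∉ Q.edges) →
      ∃ Q : G.Walk v b, len G Q < π ∧ s(x, y) ∉ Q.edges := by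
    intro a b W
    induction W with
    | nil => exact fun _ _ h => h
    | @cons a a' b h W ih =>
      rintro hWe hWB ⟨Q, hQ, hQe⟩
      rw [Walk.edges_cons, List.mem_cons, not_or] at hWe
      refine ih hWe.2 (fun w hw => hWB w (by simp [hw])) ?_
      obtain ⟨R, hR⟩ := hWB a' (by simp)
      by_contra hcon
      have hRe : s(x, y) ∈ R.bypass.edges := by
        by_contra h'
        exact hcon ⟨R.bypass, (len_bypass_le R).trans_lt hR, h'⟩
      obtain ⟨c, d, hcd, R₁, R₂, he, hRs, he1, he2⟩ := exists_split_path _ R.bypass_isPath hRe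
      have hl := (len_bypass_le R).trans_lt hR
      rw [hRs] at hl
      simp only [len_append, len_cons] at hl
      have hn1 := len_nonneg R₁
      have hn2 := len_nonneg R₂
      have hn3 := wt_nonneg (G := G) c d
      rcases Sym2.eq_iff.1 he with ⟨rfl, rfl⟩ | ⟨rfl, rfl⟩
      · have := cycle_bound hxy (R₁.reverse.append (Q.append (Walk.cons h R₂.reverse)))
          (by simp [he1, he2, hQe, hWe.1])
        have h2 := wt_le_pi h
        simp only [len_append, len_reverse, len_cons] at this
        linarith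
      · exact hy ⟨R₁, by linarith, he1⟩
  rintro rfl
  exact hy (key _ _ W hWe hWB ⟨P, hP, hPe⟩)

lemma isAcyclic_of_subset_ball (v : V) (U : Set V) (hU : U ⊆ Ball G v) :
    (G.induce U).IsAcyclic := by
  rw [isAcyclic_iff_forall_adj_isBridge]
  rintro ⟨x, hx⟩ ⟨y, hy⟩ hxy
  have hxy' : G.Adj x y := hxy
  rw [isBridge_iff_forall_walk_mem_edges]
  intro p
  by_contra hp
  let W : G.Walk x y := p.map (Embedding.induce U).toHom
  have hWe : s(x, y) ∉ W.edges := by
    intro h
    have h' : s(x, y) ∈ p.edges.map (Sym2.map (Embedding.induce U).toHom) :=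
      Walk.edges_map (Embedding.induce U).toHom p ▸ h
    obtain ⟨e, he, hee⟩ := List.mem_map.1 h'
    apply hp
    have : e = s(⟨x, hx⟩, ⟨y, hy⟩) := by
      apply Sym2.map.injective (Embedding.induce (G := G) U).injective
      exact hee
    exact this ▸ he
  have hWB : ∀ w ∈ W.support, w ∈ Ball G v := by
    intro w hw
    have h' : w ∈ p.support.map (Embedding.induce U).toHom :=
      Walk.support_map (Embedding.induce U).toHom p ▸ hw
    obtain ⟨a, -, rfl⟩ := List.mem_map.1 h'
    exact hU a.2
  obtain ⟨R, hR⟩ := hU hx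
  have hl := (len_bypass_le R).trans_lt hR
  have hsym : ∀ Q : G.Walk v y, len G Q < π → s(x, y) ∉ Q.edges → False := fun Q hQ hQe =>
    ball_bridge hxy'.symm Q hQ (by rwa [Sym2.eq_swap]) W.reverse
      (by simpa [Sym2.eq_swap] using hWe) (by simpa using hWB) rfl
  by_cases hRe : s(x, y) ∈ R.bypass.edges
  · obtain ⟨c, d, hcd, R₁, R₂, he, hRs, he1, he2⟩ := exists_split_path _ R.bypass_isPath hRe
    rw [hRs] at hl
    simp only [len_append, len_cons] at hl
    have hn2 := len_nonneg R₂
    have hn3 := wt_nonneg (G := G) c d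
    rcases Sym2.eq_iff.1 he with ⟨rfl, rfl⟩ | ⟨rfl, rfl⟩
    · exact ball_bridge hxy' R₁ (by linarith) he1 W hWe hWB rfl
    · exact hsym R₁ (by linarith) he1
  · exact ball_bridge hxy' R.bypass hl hRe W hWe hWB rfl

end Pool.Agent.Work.MP_3489b6_co.Hedge
end

-- merged part: Pool.Agent.Work.MP_3489b6_co.Hedge.Nodal
section
/-! Localisation on the path tree, written as a recursion on vertex sets. -/

set_option autoImplicit false
set_option linter.unusedSectionVars false

open SimpleGraph Real

namespace Pool.Agent.Work.MP_3489b6_co.Hedge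

variable {V : Type} [Fintype V] [DecidableEq V] (G : SimpleGraph V) [DecidableRel G.Adj]

/-- The bilinear form of the shifted Laplacian. -/
noncomputable def bf (τ : ℝ) : (V → ℝ) →ₗ[ℝ] (V → ℝ) →ₗ[ℝ] ℝ :=
  Matrix.toLinearMap₂' ℝ (G.lapMatrix ℝ - τ • (1 : Matrix V V ℝ))

variable {G}

lemma bf_apply (τ : ℝ) (g h : V → ℝ) :
    bf G τ g h = ∑ x, g x * ((G.degree x - τ) * h x - ∑ y ∈ G.neighborFinset x, h y) := by
  unfold bf
  rw [Matrix.toLinearMap₂'_apply', Matrix.sub_mulVec, Matrix.smul_mulVec, Matrix.one_mulVec]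
  refine Finset.sum_congr rfl fun x _ => ?_
  rw [Pi.sub_apply, lapMatrix_mulVec_apply]
  simp only [Pi.smul_apply, smul_eq_mul]
  ring

lemma bf_comm (τ : ℝ) (g h : V → ℝ) : bf G τ g h = bf G τ h g := by
  unfold bf
  have hs : (G.lapMatrix ℝ - τ • (1 : Matrix V V ℝ)).transpose
      = G.lapMatrix ℝ - τ • (1 : Matrix V V ℝ) := by
    rw [Matrix.transpose_sub, Matrix.transpose_smul, Matrix.transpose_one,
      (G.isSymm_lapMatrix (R := ℝ)).eq]
  rw [Matrix.toLinearMap₂'_apply', Matrix.toLinearMap₂'_apply', Matrix.dotProduct_mulVec,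
    ← Matrix.mulVec_transpose, hs, dotProduct_comm]

lemma bf_eq_zero (τ : ℝ) {g h : V → ℝ}
    (hs : ∀ x y, g x ≠ 0 → h y ≠ 0 → x ≠ y ∧ ¬ G.Adj x y) : bf G τ g h = 0 := by
  rw [bf_apply]
  refine Finset.sum_eq_zero fun x _ => ?_
  by_cases hx : g x = 0
  · rw [hx, zero_mul]
  · have h1 : h x = 0 := by
      by_contra h'
      exact (hs x x hx h').1 rfl
    have h2 : ∑ y ∈ G.neighborFinset x, h y = 0 := Finset.sum_eq_zero fun y hy => by
      by_contra h'
      exact (hs x y hx h').2 (by simpa using hy)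
    rw [h1, h2]
    ring

lemma bf_single (τ : ℝ) (v : V) (h : V → ℝ) :
    bf G τ (Pi.single v 1) h = (G.degree v - τ) * h v - ∑ y ∈ G.neighborFinset v, h y := by
  rw [bf_apply, Finset.sum_eq_single v]
  · simp
  · intro b _ hb
    simp [hb]
  · simp

lemma bf_self (τ : ℝ) (g : V → ℝ) : bf G τ g g
    = (∑ x, g x * ∑ y ∈ G.neighborFinset x, (g x - g y)) - τ * ∑ x, g x ^ 2 := by
  rw [bf_apply, Finset.mul_sum, ← Finset.sum_sub_distrib]
  refine Finset.sum_congr rfl fun x _ => ?_
  rw [Finset.sum_sub_distrib, Finset.sum_const, nsmul_eq_mul, card_neighborFinset_eq_degree]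
  ring

lemma sum_sq_pos {g : V → ℝ} (hg : g ≠ 0) : 0 < ∑ x, g x ^ 2 := by
  obtain ⟨x, hx⟩ := Function.ne_iff.1 hg
  exact Finset.sum_pos' (fun y _ => sq_nonneg _) ⟨x, Finset.mem_univ _, sq_pos_of_ne_zero hx⟩

lemma rayleigh_nonneg (g : V → ℝ) : 0 ≤ rayleigh G g := by
  refine div_nonneg ?_ (Finset.sum_nonneg fun y _ => sq_nonneg _)
  have h := bf_self (G := G) 0 g
  rw [zero_mul, sub_zero] at h
  rw [← h]
  unfold bf
  rw [zero_smul, sub_zero, lapMatrix_toLinearMap₂']
  refine div_nonneg (Finset.sum_nonneg fun i _ => Finset.sum_nonneg fun j _ => ?_) zero_le_two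
  split_ifs
  · exact sq_nonneg _
  · exact le_rfl

lemma tau_le {g : V → ℝ} (hg : g ≠ 0) (h : (G.induce (Function.support g)).IsAcyclic) :
    tau G ≤ rayleigh G g :=
  csInf_le ⟨0, by rintro _ ⟨g, -, -, rfl⟩; exact rayleigh_nonneg g⟩ ⟨g, hg, h, rfl⟩

lemma bf_nonneg (v : V) {g : V → ℝ} (hg : ∀ w, g w ≠ 0 → w ∈ Ball G v) :
    0 ≤ bf G (tau G) g g := by
  by_cases h0 : g = 0
  · simp [h0]
  · have h := tau_le h0 (isAcyclic_of_subset_ball v _ hg)
    unfold rayleigh at h
    rw [le_div_iff₀ (sum_sq_pos h0)] at h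
    rw [bf_self]
    linarith

variable (G)

/-- The form of the localised function on the path tree below a node. -/
noncomputable def S (τ : ℝ) (ρ : Finset V → V → ℝ) (H : Finset V) (v : V) (θ : ℝ) : ℝ :=
  if hv : v ∈ H then
    (G.degree v - τ) * cos θ ^ 2 + ∑ u ∈ (H.erase v).filter (G.Adj v),
      (ρ (H.erase v) u ^ 2 * S τ ρ (H.erase v) u (θ + wt G v u)
        - 2 * ρ (H.erase v) u * cos θ * cos (θ + wt G v u))
  else 0
termination_by H.card
decreasing_by exact Finset.card_erase_lt_of_mem hv

variable {G}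

lemma S_eq {τ : ℝ} {ρ : Finset V → V → ℝ} {H : Finset V} {v : V} (hv : v ∈ H) (θ : ℝ) :
    S G τ ρ H v θ = (G.degree v - τ) * cos θ ^ 2 + ∑ u ∈ (H.erase v).filter (G.Adj v),
      (ρ (H.erase v) u ^ 2 * S G τ ρ (H.erase v) u (θ + wt G v u)
        - 2 * ρ (H.erase v) u * cos θ * cos (θ + wt G v u)) := by
  rw [S, dif_pos hv]

lemma S_periodic (τ : ℝ) (ρ : Finset V → V → ℝ) (H : Finset V) :
    ∀ v ∈ H, ∀ θ, S G τ ρ H v (θ - π) = S G τ ρ H v θ := by
  induction H using Finset.strongInduction with
  | H H ih =>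
    intro v hv θ
    rw [S_eq hv, S_eq hv, cos_sub_pi, neg_sq]
    congr 1
    refine Finset.sum_congr rfl fun u hu => ?_
    have e : θ - π + wt G v u = θ + wt G v u - π := by ring
    rw [e, cos_sub_pi, ih _ (Finset.erase_ssubset hv) u (Finset.mem_filter.1 hu).1]
    ring

/-- Points reached inside H by a walk of weighted length below R. -/
def Near (G : SimpleGraph V) (H : Finset V) (v w : V) (R : ℝ) : Prop :=
  ∃ W : G.Walk v w, (∀ z ∈ W.support, z ∈ H) ∧ len G W < R

lemma not_mem_edges {H : Finset V} {v u a b : V} (W : G.Walk a b)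
    (hW : ∀ z ∈ W.support, z ∈ H.erase v) : s(u, v) ∉ W.edges := fun h =>
  (Finset.mem_erase.1 (hW v (W.snd_mem_support_of_mem_edges h))).1 rfl

lemma near_adj {H : Finset V} {v u w : V} {R : ℝ} (hR : R ≤ π) (hu : G.Adj v u)
    (hw : Near G (H.erase v) u w (R - wt G v u)) (hvw : G.Adj v w) : w = u := by
  by_contra hne
  obtain ⟨W, hW, hl⟩ := hw
  have := cycle_bound hu.symm (W.append (Walk.cons hvw.symm Walk.nil)) (by
    simp only [Walk.edges_append, Walk.edges_cons, Walk.edges_nil, List.mem_append,
      List.mem_singleton, not_or]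
    exact ⟨not_mem_edges W hW, fun h => hne (Sym2.congr_left.1 h).symm⟩)
  have h2 := wt_le_pi hvw.symm
  rw [wt_comm G u v] at this
  simp only [len_append, len_cons, len_nil] at this
  linarith [pi_pos]

lemma near_sep {H : Finset V} {v u u' w w' : V} {R : ℝ} (hR : R ≤ π) (hu : G.Adj v u)
    (hu' : G.Adj v u') (hne : u ≠ u') (hw : Near G (H.erase v) u w (R - wt G v u))
    (hw' : Near G (H.erase v) u' w' (R - wt G v u')) : w ≠ w' ∧ ¬ G.Adj w w' := by
  obtain ⟨W, hW, hl⟩ := hw
  obtain ⟨W', hW', hl'⟩ := hw'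
  have key : ∀ Q : G.Walk w w', s(u, v) ∉ Q.edges → len G Q ≤ π → False := by
    intro Q hQ hQl
    have := cycle_bound hu.symm
      (W.append (Q.append (W'.reverse.append (Walk.cons hu'.symm Walk.nil)))) (by
      simp only [Walk.edges_append, Walk.edges_cons, Walk.edges_nil, List.mem_append,
        List.mem_singleton, not_or, Walk.edges_reverse, List.mem_reverse]
      exact ⟨not_mem_edges W hW, hQ, not_mem_edges W' hW', fun h => hne (Sym2.congr_left.1 h)⟩)
    rw [wt_comm G u v] at this
    simp only [len_append, len_cons, len_nil, len_reverse] at this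
    rw [wt_comm G u' v] at this
    linarith
  refine ⟨?_, fun h => ?_⟩
  · rintro rfl
    exact key Walk.nil (by simp) (by simpa using pi_pos.le)
  · refine key (Walk.cons h Walk.nil) (not_mem_edges (H := H) _ ?_) (by simpa using wt_le_pi h)
    intro z hz
    simp only [Walk.support_cons, Walk.support_nil, List.mem_cons, List.not_mem_nil,
      or_false] at hz
    rcases hz with rfl | rfl
    · exact hW _ W.end_mem_support
    · exact hW' _ W'.end_mem_support

lemma nodal {ρ : Finset V → V → ℝ} (hρ : ∀ H u, 0 ≤ ρ H u) (H : Finset V) :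
    ∀ v ∈ H, ∀ θ, -(π / 2) ≤ θ → θ < π / 2 → ∃ g : V → ℝ, g v = cos θ ∧
      (∀ w, g w ≠ 0 → Near G H v w (π / 2 - θ)) ∧
      bf G (tau G) g g ≤ S G (tau G) ρ H v θ := by
  induction H using Finset.strongInduction with
  | H H ih =>
    intro v hv θ h1 h2
    have hcos : 0 ≤ cos θ := cos_nonneg_of_neg_pi_div_two_le_of_le h1 h2.le
    have hch : ∀ u : V, ∃ g : V → ℝ, u ∈ (H.erase v).filter (G.Adj v) →
        (∀ w, g w ≠ 0 → Near G (H.erase v) u w (π / 2 - θ - wt G v u)) ∧
        ρ (H.erase v) u ^ 2 * bf G (tau G) g g - 2 * ρ (H.erase v) u * cos θ * g u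
          ≤ ρ (H.erase v) u ^ 2 * S G (tau G) ρ (H.erase v) u (θ + wt G v u)
            - 2 * ρ (H.erase v) u * cos θ * cos (θ + wt G v u) := by
      intro u
      by_cases hu : u ∈ (H.erase v).filter (G.Adj v)
      swap
      · exact ⟨0, fun h => absurd h hu⟩
      obtain ⟨huH, hvu⟩ := Finset.mem_filter.1 hu
      have hw0 := wt_nonneg (G := G) v u
      have hw1 := wt_le_pi hvu
      by_cases hin : θ + wt G v u < π / 2
      · obtain ⟨g, hg1, hg2, hg3⟩ := ih _ (Finset.erase_ssubset hv) u huH (θ + wt G v u)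
          (by linarith) hin
        refine ⟨g, fun _ => ⟨fun w hw => ?_, ?_⟩⟩
        · have := hg2 w hw
          rwa [← sub_sub] at this
        · rw [hg1]
          have := mul_le_mul_of_nonneg_left hg3 (sq_nonneg (ρ (H.erase v) u))
          linarith
      · refine ⟨0, fun _ => ⟨fun w hw => absurd rfl hw, ?_⟩⟩
        obtain ⟨g, -, hg2, hg3⟩ := ih _ (Finset.erase_ssubset hv) u huH (θ + wt G v u - π)
          (by linarith) (by linarith)
        rw [S_periodic _ _ _ u huH] at hg3
        have h4 : 0 ≤ bf G (tau G) g g := bf_nonneg u fun w hw => by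
          obtain ⟨W, -, hW⟩ := hg2 w hw
          exact ⟨W, by linarith⟩
        have h5 : cos (θ + wt G v u) ≤ 0 :=
          cos_nonpos_of_pi_div_two_le_of_le (not_lt.1 hin) (by linarith)
        have h6 := mul_nonneg (sq_nonneg (ρ (H.erase v) u)) (h4.trans hg3)
        have h7 := mul_nonneg (mul_nonneg (hρ (H.erase v) u) hcos) (neg_nonneg.2 h5)
        simp only [map_zero, mul_zero, Pi.zero_apply, sub_zero]
        linarith
    choose g hg using hch
    set C := (H.erase v).filter (G.Adj v) with hC
    have hgv : ∀ u ∈ C, g u v = 0 := fun u hu => by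
      by_contra h
      obtain ⟨W, hW, -⟩ := (hg u hu).1 v h
      exact (Finset.mem_erase.1 (hW v W.end_mem_support)).1 rfl
    have hR : π / 2 - θ ≤ π := by linarith
    refine ⟨cos θ • (Pi.single v 1 : V → ℝ) + ∑ u ∈ C, ρ (H.erase v) u • g u, ?_, ?_, ?_⟩
    · simp only [Pi.add_apply, Pi.smul_apply, Pi.single_eq_same, smul_eq_mul, mul_one,
        Finset.sum_apply]
      rw [Finset.sum_eq_zero fun u hu => by rw [hgv u hu, mul_zero], add_zero]
    · intro w hw
      by_cases hwv : w = v
      · subst hwv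
        exact ⟨Walk.nil, by simpa using hv, by simpa using h2⟩
      · simp only [Pi.add_apply, Pi.smul_apply, Pi.single_eq_of_ne hwv, smul_eq_mul, mul_zero,
          Finset.sum_apply, zero_add] at hw
        obtain ⟨u, hu, hne⟩ := Finset.exists_ne_zero_of_sum_ne_zero hw
        obtain ⟨W, hW, hl⟩ := (hg u hu).1 w (right_ne_zero_of_mul hne)
        refine ⟨Walk.cons (Finset.mem_filter.1 hu).2 W, fun z hz => ?_, by
          rw [len_cons]; linarith⟩
        rw [Walk.support_cons, List.mem_cons] at hz
        rcases hz with rfl | hz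
        · exact hv
        · exact Finset.mem_of_mem_erase (hW z hz)
    · have e1 : bf G (tau G) (Pi.single v 1) (Pi.single v 1) = G.degree v - tau G := by
        rw [bf_single, Finset.sum_eq_zero]
        · simp
        · intro y hy
          have : G.Adj v y := by simpa using hy
          exact Pi.single_eq_of_ne this.ne' _
      have e2 : ∀ u ∈ C, bf G (tau G) (Pi.single v 1) (g u) = - g u u := by
        intro u hu
        have hvu := (Finset.mem_filter.1 hu).2
        rw [bf_single, hgv u hu, Finset.sum_eq_single u]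
        · ring
        · intro w hw hwu
          by_contra h
          exact hwu (near_adj hR hvu ((hg u hu).1 w h) (by simpa using hw))
        · intro h
          exact absurd (by simpa using hvu) h
      have e3 : ∀ u ∈ C, ∑ u' ∈ C, ρ (H.erase v) u' * bf G (tau G) (g u') (g u)
          = ρ (H.erase v) u * bf G (tau G) (g u) (g u) := by
        intro u hu
        refine Finset.sum_eq_single_of_mem u hu fun u' hu' hne => ?_
        rw [bf_eq_zero _ fun x y hx hy => near_sep hR (Finset.mem_filter.1 hu').2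
          (Finset.mem_filter.1 hu).2 hne ((hg u' hu').1 x hx) ((hg u hu).1 y hy), mul_zero]
      have e4 : ∀ u ∈ C, bf G (tau G) (g u) (Pi.single v 1) = - g u u := fun u hu => by
        rw [bf_comm, e2 u hu]
      rw [S_eq hv, ← hC]
      refine le_trans (le_of_eq ?_) (add_le_add_right (Finset.sum_le_sum fun u hu => (hg u hu).2) _)
      simp only [map_add, map_sum, map_smul, LinearMap.add_apply, LinearMap.sum_apply,
        LinearMap.smul_apply, smul_eq_mul, e1]
      rw [Finset.sum_congr rfl fun u hu => by rw [e4 u hu],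
        Finset.sum_congr (s₁ := C) (f := fun u => ρ (H.erase v) u *
          (cos θ * bf G (tau G) (Pi.single v 1) (g u)
            + ∑ u' ∈ C, ρ (H.erase v) u' * bf G (tau G) (g u') (g u))) rfl
          fun u hu => by rw [e2 u hu, e3 u hu]]
      rw [mul_add, Finset.mul_sum, add_assoc, ← Finset.sum_add_distrib]
      congr 1
      · ring
      · exact Finset.sum_congr rfl fun u _ => by ring

lemma S_nonneg {ρ : Finset V → V → ℝ} (hρ : ∀ H u, 0 ≤ ρ H u) {H : Finset V} {v : V}
    (hv : v ∈ H) {θ : ℝ} (h1 : -(π / 2) ≤ θ) (h2 : θ < π / 2) : 0 ≤ S G (tau G) ρ H v θ := by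
  obtain ⟨g, -, hg2, hg3⟩ := nodal (G := G) hρ H v hv θ h1 h2
  refine le_trans (bf_nonneg v fun w hw => ?_) hg3
  obtain ⟨W, -, hW⟩ := hg2 w hw
  exact ⟨W, by linarith⟩

end Pool.Agent.Work.MP_3489b6_co.Hedge
end

-- merged part: Pool.Agent.Work.MP_3489b6_co.Hedge.Hardy
section
/-! The Hardy inequality on the path tree and positivity of the matching polynomials. -/

set_option autoImplicit false
set_option linter.unusedSectionVars false

open SimpleGraph Real

namespace Pool.Agent.Work.MP_3489b6_co.Hedge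

variable {V : Type} [Fintype V] [DecidableEq V] {G : SimpleGraph V} [DecidableRel G.Adj]

/-- The node of the path tree has a blocked edge below it at distance n. -/
inductive Ex (G : SimpleGraph V) : Finset V → V → V → ℕ → Prop
  | base (H : Finset V) (v p b : V) : G.Adj v b → b ∉ H → b ≠ p → Ex G H v p 1
  | step (H : Finset V) (v p u : V) (n : ℕ) : G.Adj v u → u ∈ H.erase v →
      Ex G (H.erase v) u v n → Ex G H v p (n + 1)

lemma Ex.pos {H : Finset V} {v p : V} {n : ℕ} (h : Ex G H v p n) : 1 ≤ n := by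
  cases h <;> omega

lemma ex_of_path {v z : V} (W : G.Walk v z) (hW : W.IsPath) :
    ∀ (H : Finset V) (p : V), v ∈ H → z ∉ H → s(v, p) ∉ W.edges →
      ∃ m ≤ W.length, Ex G H v p m := by
  induction W with
  | nil => exact fun H p h h' _ => absurd h h'
  | @cons v u z h W ih =>
    intro H p hv hz hp
    rw [Walk.edges_cons, List.mem_cons, not_or] at hp
    rw [Walk.cons_isPath_iff] at hW
    by_cases hu : u ∈ H
    · obtain ⟨m, hm, hex⟩ := ih hW.1 (H.erase v) v (Finset.mem_erase.2 ⟨h.ne', hu⟩)
        (fun h' => hz (Finset.mem_of_mem_erase h'))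
        (fun h' => hW.2 (W.snd_mem_support_of_mem_edges h'))
      exact ⟨m + 1, by simpa using hm,
        Ex.step H v p u m h (Finset.mem_erase.2 ⟨h.ne', hu⟩) hex⟩
    · exact ⟨1, by simp, Ex.base H v p u h hu fun h' => hp.1 (by rw [h'])⟩

lemma term_ineq {m r W a : ℝ} (hm : 1 ≤ m) (hr : 0 ≤ r) (ha0 : 0 ≤ a) (ha : a ≤ 3 * π / (m + 1))
    (hW : 356 + 356 / (2 * m) ≤ W) :
    356 / (2 * (m + 1)) ≤ 356 + r ^ 2 * W - 2 * 356 * r - 2 * r * (1 - cos a) := by
  have h1 : 1 - a ^ 2 / 2 ≤ cos a := one_sub_sq_div_two_le_cos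
  have hpi : π ^ 2 ≤ 89 / 9 := by
    have := pi_lt_d4
    nlinarith [pi_pos]
  have hm1 : 0 < m + 1 := by linarith
  have h2 : a ^ 2 ≤ 89 / (m + 1) ^ 2 := by
    calc a ^ 2 ≤ (3 * π / (m + 1)) ^ 2 := by gcongr
      _ = 9 * π ^ 2 / (m + 1) ^ 2 := by rw [div_pow]; ring
      _ ≤ 89 / (m + 1) ^ 2 := by gcongr; linarith
  have h3 : 2 * r * (1 - cos a) ≤ r * (89 / (m + 1) ^ 2) := by nlinarith
  have h4 : r ^ 2 * (356 + 356 / (2 * m)) ≤ r ^ 2 * W := by gcongr
  set A : ℝ := 1 + 1 / (2 * m) with hA
  set B : ℝ := 1 + 1 / (8 * (m + 1) ^ 2) with hB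
  set D : ℝ := 1 - 1 / (2 * (m + 1)) with hD
  have hApos : 0 < A := by positivity
  have hdisc : B ^ 2 ≤ A * D := by
    have e : A * D - B ^ 2 = (16 * (m + 1) ^ 2 - m) / (64 * m * (m + 1) ^ 4) := by
      rw [hA, hB, hD]
      field_simp
      ring
    have : 0 ≤ (16 * (m + 1) ^ 2 - m) / (64 * m * (m + 1) ^ 4) :=
      div_nonneg (by nlinarith) (by positivity)
    linarith
  have h5 : 0 ≤ D + r ^ 2 * A - 2 * r * B := by
    have : 0 ≤ A * (D + r ^ 2 * A - 2 * r * B) := by nlinarith [sq_nonneg (A * r - B)]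
    by_contra hc
    have := mul_neg_of_pos_of_neg hApos (not_le.1 hc)
    linarith
  have e1 : 356 + r ^ 2 * (356 + 356 / (2 * m)) - 2 * 356 * r - r * (89 / (m + 1) ^ 2)
      - 356 / (2 * (m + 1)) = 356 * (D + r ^ 2 * A - 2 * r * B) := by
    rw [hA, hB, hD]
    field_simp
    ring
  linarith

theorem matching_pos (lam : ℝ) (hlam : 357 * lam < tau G) (f : Finset V → ℝ) (h0 : f ∅ = 1)
    (hrec : ∀ H v, v ∈ H → f H = (G.degree v - lam) * f (H.erase v)
      - ∑ u ∈ (H.erase v).filter (G.Adj v), f ((H.erase v).erase u))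
    (H : Finset V) : 0 < f H := by
  let ρ : Finset V → V → ℝ := fun K u => |f (K.erase u) / f K|
  have hρ : ∀ K u, 0 ≤ ρ K u := fun K u => abs_nonneg _
  let W : Finset V → V → ℝ → ℝ := fun K v θ =>
    357 * (f K / f (K.erase v)) - (S G (tau G) ρ K v θ + S G (tau G) ρ K v (θ - π / 2))
  have key : ∀ H : Finset V, 0 < f H ∧ ∀ v ∈ H, ∀ θ, ∀ p, p ∉ H → G.Adj v p →
      356 ≤ W H v θ ∧ ∀ n, Ex G H v p n → 356 + 356 / (2 * (n : ℝ)) ≤ W H v θ := by
    intro H
    induction H using Finset.strongInduction with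
    | H H ih =>
      have main : ∀ v ∈ H, ∀ θ, 0 < f (H.erase v) ∧ ∃ t : V → ℝ,
          (∀ u ∈ (H.erase v).filter (G.Adj v), 0 ≤ t u) ∧
          (∀ u ∈ (H.erase v).filter (G.Adj v), ∀ n, Ex G (H.erase v) u v n →
            356 / (2 * ((n : ℝ) + 1)) ≤ t u) ∧
          W H v θ = 356 * ((G.degree v : ℝ) - ((H.erase v).filter (G.Adj v)).card)
            + (tau G - 357 * lam) + ∑ u ∈ (H.erase v).filter (G.Adj v), t u := by
        intro v hv θ
        obtain ⟨hp, hq⟩ := ih (H.erase v) (Finset.erase_ssubset hv)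
        refine ⟨hp, fun u => 356 + ρ (H.erase v) u ^ 2 * W (H.erase v) u (θ + wt G v u)
          - 2 * 356 * ρ (H.erase v) u - 2 * ρ (H.erase v) u * (1 - cos (wt G v u)), ?_⟩
        have hgen : ∀ u ∈ (H.erase v).filter (G.Adj v), ∀ m, Ex G (H.erase v) u v m →
            wt G v u ≤ 3 * π / ((m : ℝ) + 1) → 356 / (2 * ((m : ℝ) + 1)) ≤
              356 + ρ (H.erase v) u ^ 2 * W (H.erase v) u (θ + wt G v u)
              - 2 * 356 * ρ (H.erase v) u - 2 * ρ (H.erase v) u * (1 - cos (wt G v u)) := by
          intro u hu m hex hw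
          obtain ⟨huH, hvu⟩ := Finset.mem_filter.1 hu
          exact term_ineq (by exact_mod_cast hex.pos) (hρ _ _) (wt_nonneg v u) hw
            ((hq u huH _ v (by simp) hvu.symm).2 m hex)
        have hshort : ∀ u ∈ (H.erase v).filter (G.Adj v), wt G v u = 0 ∨
            ∃ m, Ex G (H.erase v) u v m ∧ wt G v u ≤ 3 * π / ((m : ℝ) + 1) := by
          intro u hu
          obtain ⟨huH, hvu⟩ := Finset.mem_filter.1 hu
          rw [wt_comm]
          rcases wt_cases (G := G) u v with h | ⟨P, hP, hPe, hw⟩
          · exact Or.inl h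
          · obtain ⟨m, hm, hex⟩ := ex_of_path P hP (H.erase v) v huH (by simp) hPe
            refine Or.inr ⟨m, hex, hw.trans ?_⟩
            have : (m : ℝ) ≤ P.length := by exact_mod_cast hm
            gcongr
        refine ⟨fun u hu => ?_, fun u hu n hex => ?_, ?_⟩
        · rcases hshort u hu with h | ⟨m, hex, hw⟩
          · obtain ⟨huH, hvu⟩ := Finset.mem_filter.1 hu
            have h1 := (hq u huH (θ + wt G v u) v (by simp) hvu.symm).1
            have h2 := mul_le_mul_of_nonneg_left h1 (sq_nonneg (ρ (H.erase v) u))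
            have h3 : cos (wt G v u) = 1 := by rw [h, cos_zero]
            beta_reduce
            rw [h3]
            nlinarith [sq_nonneg (1 - ρ (H.erase v) u)]
          · exact le_trans (by positivity) (hgen u hu m hex hw)
        · rcases hshort u hu with h | ⟨m, hex', hw⟩
          · exact hgen u hu n hex (by rw [h]; positivity)
          · rcases le_total m n with hmn | hmn
            · refine le_trans ?_ (hgen u hu m hex' hw)
              have : (m : ℝ) ≤ n := by exact_mod_cast hmn
              gcongr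
            · refine hgen u hu n hex (hw.trans ?_)
              have : (n : ℝ) ≤ m := by exact_mod_cast hmn
              gcongr
        · have e1 : f H / f (H.erase v) = (G.degree v - lam)
              - ∑ u ∈ (H.erase v).filter (G.Adj v), ρ (H.erase v) u := by
            rw [hrec H v hv, sub_div, mul_div_assoc, div_self hp.ne', mul_one, Finset.sum_div]
            congr 1
            refine Finset.sum_congr rfl fun u hu => ?_
            have hpu := (ih ((H.erase v).erase u) ((Finset.erase_subset _ _).trans_ssubset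
              (Finset.erase_ssubset hv))).1
            exact (abs_of_pos (div_pos hpu hp)).symm
          have e2 : ∀ u ∈ (H.erase v).filter (G.Adj v),
              356 + ρ (H.erase v) u ^ 2 * W (H.erase v) u (θ + wt G v u)
                - 2 * 356 * ρ (H.erase v) u - 2 * ρ (H.erase v) u * (1 - cos (wt G v u))
              = 356 - 357 * ρ (H.erase v) u
                - (ρ (H.erase v) u ^ 2 * S G (tau G) ρ (H.erase v) u (θ + wt G v u)
                  - 2 * ρ (H.erase v) u * cos θ * cos (θ + wt G v u))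
                - (ρ (H.erase v) u ^ 2 * S G (tau G) ρ (H.erase v) u (θ - π / 2 + wt G v u)
                  - 2 * ρ (H.erase v) u * cos (θ - π / 2) * cos (θ - π / 2 + wt G v u)) := by
            intro u hu
            have hpu := (ih ((H.erase v).erase u) ((Finset.erase_subset _ _).trans_ssubset
              (Finset.erase_ssubset hv))).1
            have hr : ρ (H.erase v) u * (f (H.erase v) / f ((H.erase v).erase u)) = 1 := by
              have : ρ (H.erase v) u = f ((H.erase v).erase u) / f (H.erase v) :=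
                abs_of_pos (div_pos hpu hp)
              rw [this]
              field_simp
            have ea : θ - π / 2 + wt G v u = θ + wt G v u - π / 2 := by ring
            have ec : cos (wt G v u) = cos θ * cos (θ + wt G v u) + sin θ * sin (θ + wt G v u) := by
              rw [← cos_sub, ← cos_neg]
              congr 1
              ring
            simp only [W]
            rw [ea, cos_sub_pi_div_two, cos_sub_pi_div_two, ec]
            linear_combination 357 * ρ (H.erase v) u * hr
          rw [Finset.sum_congr rfl e2]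
          simp only [W]
          rw [e1, S_eq hv, S_eq hv, cos_sub_pi_div_two]
          simp only [Finset.sum_sub_distrib, Finset.sum_const, nsmul_eq_mul, ← Finset.mul_sum]
          linear_combination (tau G - G.degree v) * sin_sq_add_cos_sq θ
      have hsub : ∀ v, (H.erase v).filter (G.Adj v) ⊆ G.neighborFinset v := by
        intro v u hu
        simpa using (Finset.mem_filter.1 hu).2
      constructor
      · rcases H.eq_empty_or_nonempty with rfl | ⟨v, hv⟩
        · rw [h0]; exact one_pos
        · obtain ⟨hp, t, ht0, -, hW⟩ := main v hv 0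
          have hc : (((H.erase v).filter (G.Adj v)).card : ℝ) ≤ G.degree v := by
            exact_mod_cast Finset.card_le_card (hsub v)
          have h1 := Finset.sum_nonneg ht0
          have h2 := S_nonneg (G := G) hρ hv (θ := 0) (by linarith [pi_pos]) (by linarith [pi_pos])
          have h3 := S_nonneg (G := G) hρ hv (θ := 0 - π / 2) (by linarith) (by linarith [pi_pos])
          simp only [W] at hW
          have h4 : 0 < f H / f (H.erase v) := by linarith
          exact (div_pos_iff_of_pos_right hp).1 h4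
      · intro v hv θ p hpH hvp
        obtain ⟨-, t, ht0, ht1, hW⟩ := main v hv θ
        have hnot : ∀ b, b ∉ H → b ∉ (H.erase v).filter (G.Adj v) := fun b hb h =>
          hb (Finset.mem_of_mem_erase (Finset.mem_filter.1 h).1)
        have hc1 : (((H.erase v).filter (G.Adj v)).card : ℝ) + 1 ≤ G.degree v := by
          have := Finset.card_le_card (Finset.insert_subset (show p ∈ G.neighborFinset v by
            simpa using hvp) (hsub v))
          rw [Finset.card_insert_of_notMem (hnot p hpH)] at this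
          exact_mod_cast this
        have h1 := Finset.sum_nonneg ht0
        refine ⟨by linarith, fun n hex => ?_⟩
        cases hex with
        | base _ _ _ b hvb hb hbp =>
          have hc2 : (((H.erase v).filter (G.Adj v)).card : ℝ) + 1 + 1 ≤ G.degree v := by
            have := Finset.card_le_card (Finset.insert_subset (show b ∈ G.neighborFinset v by
              simpa using hvb) (Finset.insert_subset (show p ∈ G.neighborFinset v by
              simpa using hvp) (hsub v)))
            rw [Finset.card_insert_of_notMem (by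
              rw [Finset.mem_insert, not_or]; exact ⟨hbp, hnot b hb⟩),
              Finset.card_insert_of_notMem (hnot p hpH)] at this
            exact_mod_cast this
          norm_num
          linarith
        | step _ _ _ u n hvu hu hex =>
          have hu' : u ∈ (H.erase v).filter (G.Adj v) := Finset.mem_filter.2 ⟨hu, hvu⟩
          have h2 := (ht1 u hu' n hex).trans (Finset.single_le_sum ht0 hu')
          push_cast
          linarith
  exact (key H).1

end Pool.Agent.Work.MP_3489b6_co.Hedge
end

-- merged part: Pool.Agent.Work.MP_3489b6_co.Hedge.Main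
section
/-! The two-sided estimate. -/

set_option autoImplicit false
set_option linter.unusedSectionVars false

open SimpleGraph Matrix Pool.Agent.Lib.Interlace
open scoped ComplexOrder

namespace Pool.Agent.Work.MP_3489b6_co.Hedge

variable {V : Type} [Fintype V] [DecidableEq V] (G : SimpleGraph V) [DecidableRel G.Adj]

theorem exists_graph_signing' (y : V → ℝ)
    (hy : ∀ f : Finset V → ℝ, f ∅ = 1 → (∀ H v, v ∈ H → f H = y v * f (H.erase v)
      - ∑ u ∈ (H.erase v).filter (G.Adj v), f ((H.erase v).erase u)) → ∀ H, 0 < f H) :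
    ∃ B : Matrix V V ℂ, B.IsHermitian ∧ (∀ i j, ¬ G.Adj i j → B i j = 0) ∧
      (∀ i j, G.Adj i j → B i j = 1 ∨ B i j = -1) ∧
      ∀ c : ℝ, 0 ≤ c → (Matrix.diagonal (fun v => (y v : ℂ) + c) + B).det ≠ 0 := by
  let φ := Fintype.equivFin V
  let R : List (V × V) :=
    (Finset.univ.filter (fun e : V × V => G.Adj e.1 e.2 ∧ φ e.1 < φ e.2)).toList
  have hmem : ∀ i j, (i, j) ∈ R ↔ G.Adj i j ∧ φ i < φ j := by
    intro i j; simp [R]
  have hnd : R.Nodup := Finset.nodup_toList _
  have hsw : ∀ e ∈ R, e.swap ∉ R := by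
    rintro ⟨i, j⟩ h1 h2
    rw [Prod.swap_prod_mk] at h2
    rw [hmem] at h1 h2
    exact lt_asymm h1.2 h2.2
  have hadj : ∀ i j, ((i, j) ∈ R ∨ (j, i) ∈ R) ↔ G.Adj i j := by
    intro i j
    rw [hmem, hmem]
    constructor
    · rintro (h | h)
      · exact h.1
      · exact h.1.symm
    · intro h
      have : φ i ≠ φ j := fun e => h.ne (φ.injective e)
      rcases lt_or_gt_of_ne this with h' | h'
      · exact Or.inl ⟨h, h'⟩
      · exact Or.inr ⟨h.symm, h'⟩
  have hrec := (rec_base (fun v => (y v : ℂ))).TL R hnd hsw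
  have hpos : ∀ H, 0 < (TL R (base (0 : Matrix V V ℂ)) H (fun v => (y v : ℂ))).re := by
    apply hy
    · rw [hrec.1]; simp
    · intro H v hv
      rw [hrec.2 H v hv, Finset.sum_filter]
      simp only [Complex.sub_re, Complex.re_sum, Complex.mul_re, Complex.ofReal_re,
        Complex.ofReal_im, zero_mul, sub_zero, zero_add, Matrix.of_apply, hadj]
      congr 1
      apply Finset.sum_congr rfl
      intro u _
      split_ifs <;> simp
  obtain ⟨B, h1, h2, h3, h4⟩ := exists_signing R hnd hsw isHermitian_zero y hpos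
  refine ⟨B, h1, fun i j h => ?_, fun i j h => ?_, fun c hc h0 => ?_⟩
  · rw [h3 i j (by rw [hadj]; exact h)]; rfl
  · simpa using h4 i j ((hadj i j).2 h)
  · have := (good_base h1).pos_shift _ h2 c hc Finset.univ
    unfold base at this
    rw [pad_univ, h0] at this
    simp at this

lemma magLap_eq (B : Matrix V V ℂ) (h0 : ∀ i j, ¬ G.Adj i j → B i j = 0) (σ : V → V → ℂ)
    (hσ : ∀ i j, G.Adj i j → σ i j = - B i j) (f : V → ℂ) (x : V) :
    magLap G σ f x = ((Matrix.diagonal (fun v => ((G.degree v : ℝ) : ℂ)) + B) *ᵥ f) x := by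
  simp only [add_mulVec, Pi.add_apply, mulVec_diagonal, magLap]
  rw [Finset.sum_sub_distrib, Finset.sum_const, nsmul_eq_mul]
  have : (B *ᵥ f) x = ∑ y ∈ G.neighborFinset x, B x y * f y := by
    simp only [Matrix.mulVec, dotProduct]
    symm
    apply Finset.sum_subset (Finset.subset_univ _)
    intro y _ hy
    rw [h0 x y (by simpa using hy), zero_mul]
  have h2 : ∑ y ∈ G.neighborFinset x, σ x y * f y = - ∑ y ∈ G.neighborFinset x, B x y * f y := by
    rw [← Finset.sum_neg_distrib]
    refine Finset.sum_congr rfl fun y hy => ?_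
    rw [hσ x y (by simpa using hy)]
    ring
  rw [this, h2]
  simp

lemma isHermitian_diag_add {B : Matrix V V ℂ} (hB : B.IsHermitian) (d : V → ℝ) :
    (Matrix.diagonal (fun v => (d v : ℂ)) + B).IsHermitian := by
  apply IsHermitian.add _ hB
  rw [isHermitian_diagonal_iff]
  intro i
  simp [IsSelfAdjoint]

lemma eigenvector_ne_zero {M : Matrix V V ℂ} (hM : M.IsHermitian) (j : V) :
    (⇑(hM.eigenvectorBasis j) : V → ℂ) ≠ 0 := by
  intro h
  apply (hM.eigenvectorBasis).orthonormal.ne_zero j
  ext i
  exact congrFun h i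

theorem le_nu [Nonempty V] (lam : ℝ) (hlam : 357 * lam < tau G) : lam ≤ nu G := by
  obtain ⟨B, hB, h0, h1, hdet⟩ := exists_graph_signing' G (fun v => (G.degree v : ℝ) - lam)
    (fun f hf hrec H => matching_pos lam hlam f hf hrec H)
  let σ : V → V → ℂ := fun x y => - B x y
  have hσ : IsMagneticPotential G σ := by
    intro x y hxy
    refine ⟨?_, ?_⟩
    · rcases h1 x y hxy with h | h <;> simp [σ, h]
    · simp only [σ, map_neg]
      rw [← hB.apply y x]
      rfl
  have hM := isHermitian_diag_add hB fun v => (G.degree v : ℝ)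
  have hlap := magLap_eq G B h0 σ fun _ _ _ => rfl
  obtain ⟨j⟩ := ‹Nonempty V›
  have hlow : lam ≤ lambdaOne G σ := by
    apply le_csInf
    · refine ⟨hM.eigenvalues j, ⇑(hM.eigenvectorBasis j), eigenvector_ne_zero hM j, fun x => ?_⟩
      rw [hlap, hM.mulVec_eigenvectorBasis]
      simp
    · rintro t ⟨f, hf, h⟩
      by_contra hlt
      push Not at hlt
      apply hdet (lam - t) (by linarith)
      apply exists_mulVec_eq_zero_iff.1
      refine ⟨f, hf, ?_⟩
      ext x
      have := h x
      rw [hlap] at this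
      simp only [add_mulVec, Pi.add_apply, mulVec_diagonal] at this ⊢
      push_cast at this ⊢
      simp only [Pi.zero_apply]
      linear_combination this
  exact hlow.trans (le_csSup (bddAbove_lambda G) ⟨σ, hσ, rfl⟩)

theorem lower [Nonempty V] : tau G / 357 ≤ nu G :=
  le_of_forall_lt_imp_le_of_dense fun lam h => le_nu G lam (by linarith)

/-- A magnetic potential can be gauged away on a forest. -/
lemma exists_gauge {W : Type} [Finite W] (σ : W → W → ℂ) (n : ℕ) :
    ∀ F : SimpleGraph W, F.edgeSet.ncard = n → F.IsAcyclic →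
      (∀ x y, F.Adj x y → ‖σ x y‖ = 1 ∧ σ y x = (starRingEnd ℂ) (σ x y)) →
      ∃ φ : W → ℂ, (∀ x, ‖φ x‖ = 1) ∧ ∀ x y, F.Adj x y → φ x = σ x y * φ y := by
  classical
  induction n with
  | zero =>
    intro F hn _ _
    refine ⟨fun _ => 1, fun _ => norm_one, fun x y h => ?_⟩
    rw [Set.ncard_eq_zero] at hn
    exact absurd (F.mem_edgeSet.2 h) (by simp [hn])
  | succ n ih =>
    intro F hn hF hσ
    obtain ⟨e, he⟩ := Set.nonempty_of_ncard_ne_zero (s := F.edgeSet) (by omega)
    induction e using Sym2.ind with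
    | h a b =>
      have hab : F.Adj a b := he
      have hbr := isBridge_iff.1 (isAcyclic_iff_forall_adj_isBridge.1 hF hab)
      obtain ⟨φ, hφ1, hφ⟩ := ih (F.deleteEdges {s(a, b)})
        (by rw [edgeSet_deleteEdges, Set.ncard_sdiff_singleton_of_mem he, hn]; rfl)
        (hF.anti (deleteEdges_le _)) (fun x y h => hσ x y (deleteEdges_le _ h))
      have hφ0 : ∀ x, φ x ≠ 0 := fun x h => by simpa [h] using hφ1 x
      let c : ℂ := σ a b * φ b / φ a
      have hc : ‖c‖ = 1 := by simp [c, hφ1, (hσ a b hab).1]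
      have hca : c * φ a = σ a b * φ b := div_mul_cancel₀ _ (hφ0 a)
      refine ⟨fun x => if (F.deleteEdges {s(a, b)}).Reachable a x then c * φ x else φ x,
        fun x => ?_, fun x y hxy => ?_⟩
      · beta_reduce
        split_ifs
        · rw [norm_mul, hc, hφ1, one_mul]
        · exact hφ1 x
      · by_cases hexy : s(x, y) = s(a, b)
        · rcases Sym2.eq_iff.1 hexy with ⟨rfl, rfl⟩ | ⟨rfl, rfl⟩
          · simp only [if_pos (Reachable.refl _), if_neg hbr, hca]
          · simp only [if_pos (Reachable.refl _), if_neg hbr, hca]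
            rw [(hσ _ _ hab).2, ← mul_assoc, Complex.conj_mul', (hσ _ _ hab).1]
            simp
        · have hd : (F.deleteEdges {s(a, b)}).Adj x y := by
            rw [deleteEdges_adj]
            exact ⟨hxy, by simpa using hexy⟩
          by_cases hx : (F.deleteEdges {s(a, b)}).Reachable a x
          · simp only [if_pos hx, if_pos (hx.trans hd.reachable)]
            rw [hφ x y hd]
            ring
          · have hy : ¬ (F.deleteEdges {s(a, b)}).Reachable a y :=
              fun h => hx (h.trans hd.symm.reachable)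
            simp only [if_neg hx, if_neg hy]
            exact hφ x y hd

lemma lambdaOne_le {σ : V → V → ℂ} (hσ : IsMagneticPotential G σ) {g : V → ℝ} (hg : g ≠ 0)
    (hF : (G.induce (Function.support g)).IsAcyclic) : lambdaOne G σ ≤ rayleigh G g := by
  classical
  obtain ⟨φ, hφ1, hφ⟩ := exists_gauge (fun x y : Function.support g => σ x y) _ _ rfl hF
    fun x y h => hσ x y h
  let F : V → ℂ := fun x => if h : g x ≠ 0 then g x * φ ⟨x, h⟩ else 0
  let B : Matrix V V ℂ := Matrix.of fun i j => if G.Adj i j then - σ i j else 0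
  have hB : B.IsHermitian := by
    ext i j
    simp only [B, conjTranspose_apply, Matrix.of_apply]
    by_cases h : G.Adj i j
    · rw [if_pos h, if_pos h.symm, (hσ i j h).2]
      simp
    · rw [if_neg h, if_neg fun h' => h h'.symm]
      simp
  have hlap := magLap_eq G B (fun i j h => by simp [B, h]) σ (fun i j h => by simp [B, h])
  set t := lambdaOne G σ with ht
  have hN := isHermitian_diag_add hB fun v => (G.degree v : ℝ) - t
  have hNv : ∀ (f : V → ℂ) (x : V),
      ((Matrix.diagonal (fun v => (((G.degree v : ℝ) - t : ℝ) : ℂ)) + B) *ᵥ f) x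
        = magLap G σ f x - t * f x := by
    intro f x
    rw [hlap]
    simp only [add_mulVec, Pi.add_apply, mulVec_diagonal]
    push_cast
    ring
  have hpsd : (Matrix.diagonal (fun v => (((G.degree v : ℝ) - t : ℝ) : ℂ)) + B).PosSemidef := by
    rw [hN.posSemidef_iff_eigenvalues_nonneg]
    intro j
    have : t ≤ hN.eigenvalues j + t := by
      refine csInf_le ⟨-(2 * Fintype.card V), ?_⟩
        ⟨⇑(hN.eigenvectorBasis j), eigenvector_ne_zero hN j, fun x => ?_⟩
      · rintro r ⟨f, hf, h⟩
        exact (abs_le.1 (abs_eigen_le G hσ hf h)).1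
      · have := hNv (⇑(hN.eigenvectorBasis j)) x
        rw [hN.mulVec_eigenvectorBasis] at this
        simp only [Pi.smul_apply, Complex.real_smul] at this
        rw [Complex.ofReal_add]
        linear_combination -this
    simpa using this
  have h1 := hpsd.dotProduct_mulVec_nonneg F
  have h2 : star F ⬝ᵥ ((Matrix.diagonal (fun v => (((G.degree v : ℝ) - t : ℝ) : ℂ)) + B) *ᵥ F)
      = (((∑ x, g x * ∑ y ∈ G.neighborFinset x, (g x - g y)) - t * ∑ x, g x ^ 2 : ℝ) : ℂ) := by
    rw [Finset.mul_sum, ← Finset.sum_sub_distrib, Complex.ofReal_sum]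
    refine Finset.sum_congr rfl fun x _ => ?_
    rw [hNv, Pi.star_apply]
    by_cases hx : g x ≠ 0
    · have hxx : (starRingEnd ℂ) (φ ⟨x, hx⟩) * φ ⟨x, hx⟩ = 1 := by
        rw [Complex.conj_mul', hφ1]
        simp
      have hFx : F x = g x * φ ⟨x, hx⟩ := dif_pos hx
      have hsum : magLap G σ F x = φ ⟨x, hx⟩ * ∑ y ∈ G.neighborFinset x, ((g x : ℂ) - g y) := by
        unfold magLap
        rw [Finset.mul_sum]
        refine Finset.sum_congr rfl fun y hy => ?_
        by_cases hy0 : g y ≠ 0
        · have hFy : F y = g y * φ ⟨y, hy0⟩ := dif_pos hy0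
          have := hφ ⟨x, hx⟩ ⟨y, hy0⟩ (show G.Adj x y by simpa using hy)
          rw [hFx, hFy]
          linear_combination (g y : ℂ) * this
        · have hFy : F y = 0 := dif_neg hy0
          rw [hFx, hFy, not_not.1 hy0]
          simp [mul_comm]
      rw [hsum, hFx]
      simp only [star_mul', RCLike.star_def, Complex.conj_ofReal]
      push_cast
      linear_combination ((g x : ℂ) * ∑ y ∈ G.neighborFinset x, ((g x : ℂ) - g y)
        - t * (g x : ℂ) ^ 2) * hxx
    · have hFx : F x = 0 := dif_neg hx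
      rw [hFx, not_not.1 hx]
      simp
  rw [h2] at h1
  have h3 := Complex.zero_le_real.1 h1
  unfold rayleigh
  rw [le_div_iff₀ (sum_sq_pos hg)]
  linarith

theorem upper [Nonempty V] : nu G ≤ tau G := by
  refine csSup_le ⟨_, fun _ _ => 1, fun x y _ => by simp, rfl⟩ ?_
  rintro _ ⟨σ, hσ, rfl⟩
  obtain ⟨v⟩ := ‹Nonempty V›
  refine le_csInf ⟨_, Pi.single v 1, by simp, ?_, rfl⟩ ?_
  · have : Subsingleton (Function.support (Pi.single v (1 : ℝ) : V → ℝ)) := by
      rw [Set.subsingleton_coe]
      exact Set.subsingleton_singleton.anti Pi.support_single_subset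
    exact IsAcyclic.of_subsingleton
  · rintro _ ⟨g, hg, hF, rfl⟩
    exact lambdaOne_le G hσ hg hF

end Pool.Agent.Work.MP_3489b6_co.Hedge
end
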